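import Pool.Agent.MP_507a17_nt.H70.Plane

set_option autoImplicit false
open Classical

namespace Pool.Agent.Results.MP_507a17_nt.PlaneSets

/-- Q1 for `d = 2`: every Borel probability measure on `[0,1]^2` has, for every `N ≥ 2`, an
`N`-point set with star-discrepancy at most `C log N / N`, with an absolute constant `C`. -/
theorem result :
    ∃ C : ℝ, ∀ μ : MeasureTheory.Measure (Fin 2 → ℝ),
      MeasureTheory.IsProbabilityMeasure μ →
      μ (Set.Icc (0 : Fin 2 → ℝ) 1)ᶜ = 0 →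
      ∀ N : ℕ, 2 ≤ N →
        ∃ x : Fin N → (Fin 2 → ℝ),
          (∀ n, x n ∈ Set.Icc (0 : Fin 2 → ℝ) 1) ∧
          ∀ A : Fin 2 → Set ℝ, (∀ i, IsLowerSet (A i)) →
            |((Finset.univ.filter (fun n : Fin N => ∀ i, x n i ∈ A i)).card : ℝ) / (N : ℝ)
                - (μ {z : Fin 2 → ℝ | ∀ i, z i ∈ A i}).toReal|
              ≤ C * Real.log (N : ℝ) / (N : ℝ) := by
  refine ⟨12, fun μ hμ h0 N hN => ?_⟩
  have hL : 2 * N + 1 ≤ 2 ^ (Nat.log 2 N + 2) := by
    have := Nat.lt_pow_succ_log_self (b := 2) (by norm_num) N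
    rw [pow_succ] at this ⊢
    rw [pow_succ]
    omega
  obtain ⟨x, hx0, hx⟩ := Pool.Agent.MP_507a17_nt.H70.plane μ h0 N _ (by omega) hL
  refine ⟨fun n => x n, fun n => hx0 n, fun A hA => ?_⟩
  have h := hx A hA
  have hN' : (0 : ℝ) < N := by exact_mod_cast (by omega : 0 < N)
  have hc : ((Finset.univ.filter (fun n : Fin N => ∀ i, x n i ∈ A i)).card : ℝ)
      = ((Finset.range N).filter (fun n => ∀ i, x n i ∈ A i)).card := by
    rw [← Finset.sum_boole, ← Finset.sum_boole]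
    exact Fin.sum_univ_eq_sum_range (fun n => if ∀ i, x n i ∈ A i then (1 : ℝ) else 0) N
  rw [hc, le_div_iff₀ hN', ← abs_of_pos hN', ← abs_mul, abs_of_pos hN', sub_mul,
    div_mul_cancel₀ _ hN'.ne', mul_comm]
  refine h.trans ?_
  have h1 : (2 : ℝ) ^ Nat.log 2 N ≤ N := by
    exact_mod_cast Nat.pow_log_le_self 2 (by omega : N ≠ 0)
  have h2 := Real.log_le_log (by positivity) h1
  rw [Real.log_pow] at h2
  have h3 := Real.log_two_gt_d9
  have h4 : Real.log 2 ≤ Real.log N := Real.log_le_log (by norm_num) (by exact_mod_cast hN)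
  have h5 : (0 : ℝ) ≤ Nat.log 2 N := by positivity
  push_cast
  nlinarith

end Pool.Agent.Results.MP_507a17_nt.PlaneSets
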