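import Pool.Agent.MP_507a17_nt.H70.Sequence

set_option autoImplicit false
open Classical

namespace Pool.Agent.Results.MP_507a17_nt.SequenceRate

/-- Q2: for every `d ≥ 1` there is `C` such that every Borel probability measure `μ` on `[0,1]^d`
has a sequence in `[0,1]^d` with star-discrepancy at most `C (log N)^d / N` for all `N ≥ 2`.
The test boxes are products of lower sets of `ℝ`, so each side may be open or closed at its far
end. -/
theorem result :
    ∀ d : ℕ, 1 ≤ d →
      ∃ C : ℝ, ∀ μ : MeasureTheory.Measure (Fin d → ℝ),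
        MeasureTheory.IsProbabilityMeasure μ →
        μ (Set.Icc (0 : Fin d → ℝ) 1)ᶜ = 0 →
        ∃ x : ℕ → (Fin d → ℝ),
          (∀ n, x n ∈ Set.Icc (0 : Fin d → ℝ) 1) ∧
          ∀ N : ℕ, 2 ≤ N → ∀ A : Fin d → Set ℝ, (∀ i, IsLowerSet (A i)) →
            |(((Finset.range N).filter (fun n : ℕ => ∀ i, x n i ∈ A i)).card : ℝ) / (N : ℝ)
                - (μ {z : Fin d → ℝ | ∀ i, z i ∈ A i}).toReal|
              ≤ C * (Real.log (N : ℝ)) ^ d / (N : ℝ) := by
  intro d hd
  obtain ⟨C, hC⟩ := Pool.Agent.MP_507a17_nt.H70.sequence d hd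
  refine ⟨C, fun μ hμ h0 => ?_⟩
  obtain ⟨x, hx0, hx⟩ := hC μ hμ h0
  refine ⟨x, hx0, fun N hN A hA => ?_⟩
  have h := hx N hN A hA
  have hN' : (0 : ℝ) < N := by exact_mod_cast (by omega : 0 < N)
  rw [Finset.sum_boole] at h
  rw [le_div_iff₀ hN', ← abs_of_pos hN', ← abs_mul, abs_of_pos hN', sub_mul,
    div_mul_cancel₀ _ hN'.ne', mul_comm]
  exact h

end Pool.Agent.Results.MP_507a17_nt.SequenceRate
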