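import Pool.Agent.MP_507a17_nt.H83.Atoms

namespace Pool.Agent.Results.MP_507a17_nt.ThreeDimFails

open MeasureTheory

open Classical in
/-- In dimension three the rate `(log N) ^ 2 / N` cannot be reached uniformly over all measures. -/
theorem result (C : ℝ) :
    ∃ μ : Measure (Fin 3 → ℝ), IsProbabilityMeasure μ ∧ μ (Set.Icc (0 : Fin 3 → ℝ) 1)ᶜ = 0 ∧
      ∃ N : ℕ, 2 ≤ N ∧ ∀ x : Fin N → (Fin 3 → ℝ), (∀ n, x n ∈ Set.Icc (0 : Fin 3 → ℝ) 1) →
        ∃ y : Fin 3 → ℝ, C * Real.log (N : ℝ) ^ 2 / (N : ℝ) <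
          |((Finset.univ.filter fun n : Fin N => ∀ i, x n i < y i).card : ℝ) / (N : ℝ) -
            (μ {z : Fin 3 → ℝ | ∀ i, z i < y i}).toReal| := by
  obtain ⟨μ, h1, h2, M, hM, h3⟩ := Pool.Agent.MP_507a17_nt.H83.not_rate C
  refine ⟨μ, h1, h2, M, hM, fun x hx => ?_⟩
  have h4 := h3 x hx
  push Not at h4
  exact h4

end Pool.Agent.Results.MP_507a17_nt.ThreeDimFails
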